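import Pool.Agent.H73.CTG.Stmts

set_option autoImplicit false

open Set Filter Topology

namespace Pool.CTG

theorem max_one (g : ℝ → ℝ) (hm : IsLocalMax g 0) (hc : ContinuousAt g 0) :
    deriv (deriv g) 0 ≤ 0 := by
  by_contra hcon
  push Not at hcon
  have hd : deriv g 0 = 0 := hm.deriv_eq_zero
  have hmin : IsLocalMin g 0 := isLocalMin_of_deriv_deriv_pos hcon hd hc
  have heq : g =ᶠ[𝓝 0] fun _ => g 0 := by
    filter_upwards [hm, hmin] with t h1 h2
    exact le_antisymm h1 h2
  have h1 : deriv g =ᶠ[𝓝 0] deriv fun _ => g 0 := heq.deriv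
  have h2 : deriv (deriv g) 0 = deriv (deriv fun _ : ℝ => g 0) 0 := h1.deriv_eq
  have h3 : (deriv fun _ : ℝ => g 0) = fun _ => 0 := by
    funext t
    exact deriv_const t _
  rw [h3, deriv_const] at h2
  linarith

theorem max_dir (u : ℂ → ℝ) (z v : ℂ) (R a b k : ℝ) (hu : ContDiffOn ℝ 2 u (Metric.ball 0 R))
    (hz : z ∈ Metric.ball (0 : ℂ) R)
    (hm : IsLocalMax (fun t : ℝ => u (z + t • v) - k * ((a + t) ^ 2 + b)) 0) :
    fderiv ℝ (fun y => fderiv ℝ u y v) z v ≤ 2 * k := by
  have hat : ∀ y ∈ Metric.ball (0 : ℂ) R, ContDiffAt ℝ 2 u y := fun y hy =>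
    hu.contDiffAt (Metric.isOpen_ball.mem_nhds hy)
  have hline : ∀ t : ℝ, HasDerivAt (fun t : ℝ => z + t • v) v t := by
    intro t
    have h1 : HasDerivAt (fun t : ℝ => t • v) ((1 : ℝ) • v) t := (hasDerivAt_id t).smul_const v
    have h2 := h1.const_add z
    simpa using h2
  have hquad : ∀ t : ℝ, HasDerivAt (fun t : ℝ => k * ((a + t) ^ 2 + b)) (2 * k * (a + t)) t := by
    intro t
    have h1 : HasDerivAt (fun t : ℝ => a + t) 1 t := (hasDerivAt_id t).const_add a
    have h2 : HasDerivAt (fun t : ℝ => (a + t) ^ 2) (2 * (a + t)) t := by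
      simpa using h1.fun_pow 2
    have h3 : HasDerivAt (fun t : ℝ => k * ((a + t) ^ 2 + b)) (k * (2 * (a + t))) t :=
      (h2.add_const b).const_mul k
    exact h3.congr_deriv (by ring)
  have hev : ∀ᶠ t : ℝ in 𝓝 0, z + t • v ∈ Metric.ball (0 : ℂ) R := by
    have hcont : ContinuousAt (fun t : ℝ => z + t • v) 0 := (hline 0).continuousAt
    apply hcont.eventually_mem
    apply Metric.isOpen_ball.mem_nhds
    simpa using hz
  have hg : ∀ᶠ t : ℝ in 𝓝 0, deriv (fun t : ℝ => u (z + t • v) - k * ((a + t) ^ 2 + b)) t =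
      fderiv ℝ u (z + t • v) v - 2 * k * (a + t) := by
    filter_upwards [hev] with t ht
    have h1 : HasFDerivAt u (fderiv ℝ u (z + t • v)) (z + t • v) :=
      ((hat _ ht).differentiableAt (by norm_num)).hasFDerivAt
    have h2 : HasDerivAt (fun t : ℝ => u (z + t • v)) (fderiv ℝ u (z + t • v) v) t :=
      h1.comp_hasDerivAt t (hline t)
    exact (h2.sub (hquad t)).deriv
  have hz0 : z + (0 : ℝ) • v = z := by simp
  have hfd : DifferentiableAt ℝ (fun y => fderiv ℝ u y v) z := by
    have h1 : ContDiffAt ℝ 1 (fderiv ℝ u) z := (hat z hz).fderiv_right (by norm_num)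
    exact (h1.differentiableAt (by norm_num)).clm_apply (differentiableAt_const v)
  have h2 : HasDerivAt (fun t : ℝ => fderiv ℝ u (z + t • v) v - 2 * k * (a + t))
      (fderiv ℝ (fun y => fderiv ℝ u y v) z v - 2 * k) 0 := by
    have h3 : HasFDerivAt (fun y => fderiv ℝ u y v) (fderiv ℝ (fun y => fderiv ℝ u y v) z)
        (z + (0 : ℝ) • v) := by
      rw [hz0]
      exact hfd.hasFDerivAt
    have h4 : HasDerivAt (fun t : ℝ => fderiv ℝ u (z + t • v) v)
        (fderiv ℝ (fun y => fderiv ℝ u y v) z v) 0 := by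
      have h7 := h3.comp_hasDerivAt (0 : ℝ) (hline 0)
      exact h7
    have h5 : HasDerivAt (fun t : ℝ => 2 * k * (a + t)) (2 * k) 0 := by
      have h6 : HasDerivAt (fun t : ℝ => a + t) 1 0 := (hasDerivAt_id (0 : ℝ)).const_add a
      simpa using h6.const_mul (2 * k)
    exact h4.sub h5
  have hdd : deriv (deriv (fun t : ℝ => u (z + t • v) - k * ((a + t) ^ 2 + b))) 0 =
      fderiv ℝ (fun y => fderiv ℝ u y v) z v - 2 * k := by
    have h3 : deriv (fun t : ℝ => u (z + t • v) - k * ((a + t) ^ 2 + b)) =ᶠ[𝓝 0]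
        fun t : ℝ => fderiv ℝ u (z + t • v) v - 2 * k * (a + t) := hg
    rw [h3.deriv_eq]
    exact h2.deriv
  have hc : ContinuousAt (fun t : ℝ => u (z + t • v) - k * ((a + t) ^ 2 + b)) 0 := by
    have h3 : ContinuousAt u (z + (0 : ℝ) • v) := by
      rw [hz0]
      exact (hat z hz).continuousAt
    have h4 : ContinuousAt (fun t : ℝ => u (z + t • v)) 0 :=
      ContinuousAt.comp (f := fun t : ℝ => z + t • v) h3 (hline 0).continuousAt
    exact h4.sub (hquad 0).continuousAt
  have := max_one _ hm hc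
  rw [hdd] at this
  linarith

theorem MAX_thm : MAXStmt := by
  intro u r R c M hr hrR hc hu hL hM
  have hcont : ContinuousOn (fun z : ℂ => u z - c / 8 * ‖z‖ ^ 2) (Metric.closedBall 0 r) := by
    apply ContinuousOn.sub
    · exact hu.continuousOn.mono (Metric.closedBall_subset_ball hrR)
    · fun_prop
  obtain ⟨z, hz, hmax⟩ := (isCompact_closedBall (0 : ℂ) r).exists_isMaxOn
    ⟨0, Metric.mem_closedBall_self hr.le⟩ hcont
  have hz' : ‖z‖ ≤ r := by simpa using hz
  have h0 : u 0 ≤ u z - c / 8 * ‖z‖ ^ 2 := by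
    have := hmax (Metric.mem_closedBall_self hr.le)
    simpa using this
  rcases lt_or_eq_of_le hz' with hlt | heq
  · exfalso
    have hzR : z ∈ Metric.ball (0 : ℂ) R := by
      simpa using lt_trans hlt hrR
    have hnb : Metric.closedBall (0 : ℂ) r ∈ 𝓝 z :=
      Filter.mem_of_superset (Metric.isOpen_ball.mem_nhds (by simpa using hlt))
        Metric.ball_subset_closedBall
    have hloc : IsLocalMax (fun z : ℂ => u z - c / 8 * ‖z‖ ^ 2) z := hmax.isLocalMax hnb
    have hsq : ∀ w : ℂ, ‖w‖ ^ 2 = w.re ^ 2 + w.im ^ 2 := fun w => by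
      rw [← Complex.normSq_eq_norm_sq, Complex.normSq_apply]
      ring
    have hlm : ∀ v : ℂ, IsLocalMax (fun t : ℝ => u (z + t • v) - c / 8 * ‖z + t • v‖ ^ 2) 0 := by
      intro v
      have hct : Tendsto (fun t : ℝ => z + t • v) (𝓝 0) (𝓝 z) := by
        have : ContinuousAt (fun t : ℝ => z + t • v) 0 := by fun_prop
        have h2 := this.tendsto
        simpa using h2
      have h3 := hct.eventually hloc
      have h4 : ∀ᶠ t : ℝ in 𝓝 0, (u (z + t • v) - c / 8 * ‖z + t • v‖ ^ 2) ≤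
          u (z + (0 : ℝ) • v) - c / 8 * ‖z + (0 : ℝ) • v‖ ^ 2 := by
        simpa using h3
      exact h4
    have ex : ∀ t : ℝ, ‖z + t • (1 : ℂ)‖ ^ 2 = (z.re + t) ^ 2 + z.im ^ 2 := by
      intro t
      rw [hsq]
      simp
    have ey : ∀ t : ℝ, ‖z + t • Complex.I‖ ^ 2 = (z.im + t) ^ 2 + z.re ^ 2 := by
      intro t
      rw [hsq]
      simp
      ring
    have hx := max_dir u z 1 R z.re (z.im ^ 2) (c / 8) hu hzR (by
      have := hlm 1
      simp only [ex] at this
      exact this)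
    have hy := max_dir u z Complex.I R z.im (z.re ^ 2) (c / 8) hu hzR (by
      have := hlm Complex.I
      simp only [ey] at this
      exact this)
    have := hL z hzR
    linarith
  · have h1 := hM z heq
    rw [heq] at h0
    linarith

end Pool.CTG
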